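import Mathlib

open Finset

namespace Pool.Agent.Results.MP_92a29d_co.FourColours

/-- `G` contains an odd cycle of length at most `ℓ`. -/
def HasOddCycleLE {V : Type*} (G : SimpleGraph V) (ℓ : ℕ) : Prop :=
  ∃ (v : V) (p : G.Walk v v), p.IsCycle ∧ Odd p.length ∧ p.length ≤ ℓ

/-- there is a walk of length `n` from `u` to `v` -/
def HW {V : Type*} (G : SimpleGraph V) (n : ℕ) (u v : V) : Prop :=
  ∃ p : G.Walk u v, p.length = n

/-- no odd closed walk of length `≤ ℓ` -/
def NoOdd {V : Type*} (G : SimpleGraph V) (ℓ : ℕ) : Prop :=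
  ∀ (v : V) (n : ℕ), Odd n → HW G n v v → ℓ < n

/-- `c 0, c 1, …, c g = c 0` is a shortest odd closed walk, of length `g`. -/
structure MinOdd {V : Type*} (G : SimpleGraph V) (g : ℕ) (c : ℕ → V) : Prop where
  adj : ∀ i < g, G.Adj (c i) (c (i+1))
  closed : c g = c 0
  odd : Odd g
  min : ∀ n, Odd n → n < g → ∀ v, ¬ HW G n v v

section walks
variable {V : Type*} {G : SimpleGraph V}

lemma HW.refl (u : V) : HW G 0 u u := ⟨SimpleGraph.Walk.nil, rfl⟩

lemma HW.of_adj {u v : V} (h : G.Adj u v) : HW G 1 u v :=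
  ⟨SimpleGraph.Walk.cons h SimpleGraph.Walk.nil, rfl⟩

lemma HW.trans {a b : ℕ} {u v w : V} (h1 : HW G a u v) (h2 : HW G b v w) : HW G (a + b) u w := by
  obtain ⟨p, hp⟩ := h1
  obtain ⟨q, hq⟩ := h2
  exact ⟨p.append q, by rw [SimpleGraph.Walk.length_append, hp, hq]⟩

lemma HW.symm {a : ℕ} {u v : V} (h1 : HW G a u v) : HW G a v u := by
  obtain ⟨p, hp⟩ := h1
  exact ⟨p.reverse, by rw [SimpleGraph.Walk.length_reverse, hp]⟩

lemma HW_seg (c : ℕ → V) (g : ℕ) (hc : ∀ i < g, G.Adj (c i) (c (i+1))) (i : ℕ) (d : ℕ)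
    (h : i + d ≤ g) : HW G d (c i) (c (i + d)) := by
  induction d with
  | zero => exact HW.refl _
  | succ d ih =>
    have h1 := ih (by omega)
    exact h1.trans (HW.of_adj (hc (i+d) (by omega)))

namespace MinOdd
variable {g : ℕ} {c : ℕ → V}

lemma arc1 (M : MinOdd G g c) {i j : ℕ} (hij : i ≤ j) (hj : j ≤ g) : HW G (j - i) (c i) (c j) := by
  have w1 := HW_seg c g M.adj i (j - i) (by omega)
  rwa [show i + (j - i) = j by omega] at w1

lemma arc2 (M : MinOdd G g c) {i j : ℕ} (hij : i ≤ j) (hj : j ≤ g) :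
    HW G (g - (j - i)) (c i) (c j) := by
  have w2 := M.arc1 hj le_rfl
  rw [M.closed] at w2
  have w3 := M.arc1 (Nat.zero_le i) (hij.trans hj)
  have w4 := (w2.trans w3).symm
  rwa [show g - j + (i - 0) = g - (j - i) by omega] at w4

lemma inj (M : MinOdd G g c) {i j : ℕ} (hij : i < j) (hj : j < g) : c i ≠ c j := by
  intro heq
  have w1 := M.arc1 hij.le hj.le
  have w2 := M.arc2 hij.le hj.le
  rw [← heq] at w1 w2
  obtain ⟨b, hb⟩ := M.odd
  rcases Nat.even_or_odd (j - i) with ⟨a, ha⟩ | ho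
  · exact M.min (g - (j - i)) ⟨b - a, by omega⟩ (by omega) _ w2
  · exact M.min (j - i) ho (by omega) _ w1

lemma inj' (M : MinOdd G g c) {i j : ℕ} (hi : i < g) (hj : j < g) (h : c i = c j) : i = j := by
  rcases lt_trichotomy i j with h1 | h1 | h1
  · exact absurd h (M.inj h1 hj)
  · exact h1
  · exact absurd h.symm (M.inj h1 hi)

/-- chords: `c i ~ c j` (with `i < j < g`) forces `j = i + 1` or `(i, j) = (0, g - 1)`. -/
lemma chord (M : MinOdd G g c) {i j : ℕ} (hij : i < j) (hj : j < g) (h : G.Adj (c i) (c j)) :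
    j = i + 1 ∨ (i = 0 ∧ j + 1 = g) := by
  by_contra hne
  have w1 := (M.arc1 hij.le hj.le).trans (HW.of_adj h.symm)
  have w2 := (M.arc2 hij.le hj.le).trans (HW.of_adj h.symm)
  obtain ⟨b, hb⟩ := M.odd
  rcases Nat.even_or_odd (j - i) with ⟨a, ha⟩ | ⟨a, ha⟩
  · exact M.min (j - i + 1) ⟨a, by omega⟩ (by omega) _ w1
  · exact M.min (g - (j - i) + 1) ⟨b - a, by omega⟩ (by omega) _ w2

/-- two neighbours of a vertex on the cycle have index difference `2` or `g - 2`. -/
lemma two_nbrs (M : MinOdd G g c) {i j : ℕ} (hij : i < j) (hj : j < g) {x : V}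
    (hi' : G.Adj x (c i)) (hj' : G.Adj x (c j)) : j - i = 2 ∨ j - i + 2 = g := by
  by_contra hne
  have w1 := (((HW.of_adj hi').trans (M.arc1 hij.le hj.le)).trans (HW.of_adj hj'.symm))
  have w2 := (((HW.of_adj hi').trans (M.arc2 hij.le hj.le)).trans (HW.of_adj hj'.symm))
  obtain ⟨b, hb⟩ := M.odd
  have h3 := M.min (1 + (j - i) + 1)
  have h4 := M.min (1 + (g - (j - i)) + 1)
  rcases Nat.even_or_odd (j - i) with ⟨a, ha⟩ | ⟨a, ha⟩
  · refine h4 ⟨b - a + 1, by omega⟩ ?_ _ w2
    omega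
  · refine h3 ⟨a + 1, by omega⟩ ?_ _ w1
    omega

/-- no three neighbours of a vertex on a shortest odd closed walk of length `≥ 5` -/
lemma three_nbrs (M : MinOdd G g c) (h5 : 5 ≤ g) {i j l : ℕ} (hij : i < j) (hjl : j < l) (hl : l < g)
    {x : V} (hi' : G.Adj x (c i)) (hj' : G.Adj x (c j)) (hl' : G.Adj x (c l)) : False := by
  have h1 := M.two_nbrs hij (hjl.trans hl) hi' hj'
  have h2 := M.two_nbrs hjl hl hj' hl'
  have h3 := M.two_nbrs (hij.trans hjl) hl hi' hl'
  obtain ⟨b, hb⟩ := M.odd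
  omega

end MinOdd

/-- If there is an odd closed walk, there is a shortest one. -/
lemma exists_minOdd {v : V} {n : ℕ} (hn : Odd n) (h : HW G n v v) :
    ∃ (g : ℕ) (v : V) (p : G.Walk v v), g ≤ n ∧ p.length = g ∧ MinOdd G g p.getVert := by
  classical
  have hex : ∃ n, Odd n ∧ ∃ v, HW G n v v := ⟨n, hn, v, h⟩
  obtain ⟨hodd, v', p, hp⟩ := Nat.find_spec hex
  refine ⟨Nat.find hex, v', p, Nat.find_min' hex ⟨hn, v, h⟩, hp, ?_⟩
  constructor
  · intro i hi
    exact p.adj_getVert_succ (by rw [hp]; exact hi)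
  · rw [← hp]; simp
  · exact hodd
  · intro n hn hlt v hv
    exact Nat.find_min hex hlt ⟨hn, v, hv⟩

/-- If there is an odd closed walk of length `≤ ℓ` there is an odd cycle of length `≤ ℓ`. -/
lemma exists_cycle_of_not_noOdd {ℓ : ℕ} (h : ¬ NoOdd G ℓ) : HasOddCycleLE G ℓ := by
  unfold NoOdd at h
  push Not at h
  obtain ⟨v, n, h1, h2, h3⟩ := h
  obtain ⟨g, v', p, hle, hp, M⟩ := exists_minOdd h1 h2
  refine ⟨v', p, ?_, by rw [hp]; exact M.odd, by rw [hp]; omega⟩
  have h3g : 3 ≤ g := by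
    obtain ⟨b, hb⟩ := M.odd
    rcases Nat.lt_or_ge g 3 with h | h
    · have hg1 : g = 1 := by omega
      have := M.adj 0 (by omega)
      have h2 := M.closed
      rw [hg1] at h2
      simp only [zero_add] at this
      rw [h2] at this
      exact absurd rfl this.ne
    · exact h
  rw [SimpleGraph.Walk.isCycle_iff_isPath_tail_and_le_length]
  have hnil : ¬ p.Nil := by
    intro hn
    have := SimpleGraph.Walk.length_eq_zero_iff.mpr hn
    omega
  have htl := SimpleGraph.Walk.length_tail_add_one hnil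
  refine ⟨?_, by omega⟩
  rw [← SimpleGraph.Walk.IsPath.getVert_injOn_iff]
  intro a ha b hb hab
  simp only [Set.mem_ofPred_eq] at ha hb
  rw [SimpleGraph.Walk.getVert_tail, SimpleGraph.Walk.getVert_tail] at hab
  have key : ∀ a b, a < b → b ≤ p.tail.length → p.getVert (a+1) ≠ p.getVert (b+1) := by
    intro a b hab hb
    rcases Nat.lt_or_ge (b+1) g with h1 | h1
    · exact M.inj (by omega) h1
    · have hbl : b + 1 = g := by omega
      rw [hbl, M.closed]
      exact (M.inj (by omega) (by omega)).symm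
  by_contra hne
  rcases lt_or_gt_of_ne hne with h1 | h1
  · exact key a b h1 hb hab
  · exact key b a h1 ha hab.symm

lemma noOdd_of_not_hasOddCycleLE {ℓ : ℕ} (h : ¬ HasOddCycleLE G ℓ) : NoOdd G ℓ := by
  by_contra hc
  exact h (exists_cycle_of_not_noOdd hc)

lemma not_hasOddCycleLE_of_noOdd {ℓ : ℕ} (h : NoOdd G ℓ) : ¬ HasOddCycleLE G ℓ := by
  rintro ⟨v, p, -, ho, hl⟩
  have := h v p.length ho ⟨p, rfl⟩
  omega

end walks

section count
variable {V : Type*}

open Classical in
/-- number of neighbours of `u` in `T` -/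
noncomputable def dg (G : SimpleGraph V) (T : Finset V) (u : V) : ℕ := #{v ∈ T | G.Adj u v}

/-- number of ordered adjacent pairs in `S × T` -/
noncomputable def dd (G : SimpleGraph V) (S T : Finset V) : ℕ := ∑ u ∈ S, dg G T u

lemma dd_comm (G : SimpleGraph V) (S T : Finset V) : dd G S T = dd G T S := by
  classical
  unfold dd dg
  simp_rw [Finset.card_filter]
  rw [Finset.sum_comm]
  refine Finset.sum_congr rfl fun u _ => Finset.sum_congr rfl fun v _ => ?_
  simp [G.adj_comm]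

lemma dg_mono (G : SimpleGraph V) {S T : Finset V} (h : S ⊆ T) (u : V) : dg G S u ≤ dg G T u := by
  classical
  unfold dg
  exact Finset.card_le_card (Finset.filter_subset_filter _ h)

lemma dg_split [DecidableEq V] (G : SimpleGraph V) {S T : Finset V} (h : S ⊆ T) (u : V) :
    dg G T u = dg G S u + dg G (T \ S) u := by
  classical
  unfold dg
  rw [← Finset.card_union_of_disjoint]
  · congr 1
    ext v
    simp only [mem_filter, mem_union, mem_sdiff]
    constructor
    · rintro ⟨h1, h2⟩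
      by_cases h3 : v ∈ S
      · exact Or.inl ⟨h3, h2⟩
      · exact Or.inr ⟨⟨h1, h3⟩, h2⟩
    · rintro (⟨h1, h2⟩ | ⟨⟨h1, -⟩, h2⟩)
      · exact ⟨h h1, h2⟩
      · exact ⟨h1, h2⟩
  · rw [Finset.disjoint_left]
    intro v hv hv'
    simp only [mem_filter, mem_sdiff] at hv hv'
    exact hv'.1.2 hv.1

lemma dd_split_left [DecidableEq V] (G : SimpleGraph V) {S T : Finset V} (R : Finset V) (h : S ⊆ T) :
    dd G T R = dd G S R + dd G (T \ S) R := by
  unfold dd
  rw [← Finset.sum_sdiff h, add_comm]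

lemma dd_split_right [DecidableEq V] (G : SimpleGraph V) {S T : Finset V} (R : Finset V)
    (h : S ⊆ T) : dd G R T = dd G R S + dd G R (T \ S) := by
  rw [dd_comm G R T, dd_comm G R S, dd_comm G R (T \ S), dd_split_left G R h]

/-- Mantel's theorem for a finite set of vertices. -/
lemma mantel [DecidableEq V] (G : SimpleGraph V) (htri : ∀ a b c, G.Adj a b → G.Adj b c → G.Adj c a → False)
    (O : Finset V) : 2 * dd G O O ≤ #O ^ 2 := by
  classical
  rcases O.eq_empty_or_nonempty with rfl | hne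
  · simp [dd]
  obtain ⟨w, hw, hmax⟩ := Finset.exists_max_image O (dg G O) hne
  set N : Finset V := {v ∈ O | G.Adj w v} with hN
  have hNO : N ⊆ O := Finset.filter_subset _ _
  have hNc : #N = dg G O w := rfl
  have h1 : dd G O O = dd G N O + dd G (O \ N) O := dd_split_left G O hNO
  have h2 : dd G N O = dd G N N + dd G N (O \ N) := dd_split_right G N hNO
  have h3 : dd G N N = 0 := by
    unfold dd
    refine Finset.sum_eq_zero fun u hu => ?_
    unfold dg
    rw [Finset.card_eq_zero, Finset.filter_eq_empty_iff]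
    intro v hv huv
    simp only [hN, mem_filter] at hu hv
    exact htri w u v hu.2 huv hv.2.symm
  have h4 : dd G N (O \ N) ≤ dd G (O \ N) O := by
    rw [dd_comm]
    unfold dd
    exact Finset.sum_le_sum fun u _ => dg_mono G hNO u
  have h5 : dd G (O \ N) O ≤ #(O \ N) * #N := by
    unfold dd
    rw [← smul_eq_mul]
    exact Finset.sum_le_card_nsmul _ _ _ fun u hu => by
      rw [hNc]; exact hmax u (Finset.mem_sdiff.mp hu).1
  have h6 : #(O \ N) + #N = #O := Finset.card_sdiff_add_card_eq_card hNO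
  have h7 : 2 * dd G O O ≤ 4 * (#(O \ N) * #N) := by omega
  have h8 : 4 * (#(O \ N) * #N) ≤ #O ^ 2 := by
    rw [← h6]
    have := four_mul_le_sq_add (#(O \ N)) (#N)
    linarith
  exact h7.trans h8

end count


section edgebound
variable {V : Type*}

/-- the vertex set of the cycle -/
def cyc [DecidableEq V] (g : ℕ) (c : ℕ → V) : Finset V := (Finset.range g).image c

lemma MinOdd.card_cyc [DecidableEq V] {G : SimpleGraph V} {g : ℕ} {c : ℕ → V} (M : MinOdd G g c) :
    #(cyc g c) = g := by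
  unfold cyc
  rw [Finset.card_image_of_injOn, Finset.card_range]
  intro i hi j hj hij
  simp only [coe_range, Set.mem_Iio] at hi hj
  exact M.inj' hi hj hij

lemma MinOdd.dg_le [DecidableEq V] {G : SimpleGraph V} {g : ℕ} {c : ℕ → V} (M : MinOdd G g c)
    (h5 : 5 ≤ g) (x : V) : dg G (cyc g c) x ≤ 2 := by
  classical
  by_contra hlt
  have hlt : 2 < dg G (cyc g c) x := by omega
  unfold dg at hlt
  rw [Finset.two_lt_card] at hlt
  obtain ⟨u, hu, v, hv, w, hw, huv, huw, hvw⟩ := hlt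
  simp only [cyc, mem_filter, mem_image, mem_range] at hu hv hw
  obtain ⟨⟨i, hi, rfl⟩, hiu⟩ := hu
  obtain ⟨⟨j, hj, rfl⟩, hjv⟩ := hv
  obtain ⟨⟨l, hl, rfl⟩, hlw⟩ := hw
  have h1 : i ≠ j := fun h => huv (by rw [h])
  have h2 : i ≠ l := fun h => huw (by rw [h])
  have h3 : j ≠ l := fun h => hvw (by rw [h])
  rcases lt_or_gt_of_ne h1 with a1 | a1 <;> rcases lt_or_gt_of_ne h2 with a2 | a2 <;>
    rcases lt_or_gt_of_ne h3 with a3 | a3
  · exact M.three_nbrs h5 a1 a3 hl hiu hjv hlw
  · exact M.three_nbrs h5 a2 a3 hj hiu hlw hjv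
  · omega
  · exact M.three_nbrs h5 a2 a1 hj hlw hiu hjv
  · exact M.three_nbrs h5 a1 a2 hl hjv hiu hlw
  · omega
  · exact M.three_nbrs h5 a3 a2 hi hjv hlw hiu
  · exact M.three_nbrs h5 a3 a1 hi hlw hjv hiu

lemma MinOdd.triFree {G : SimpleGraph V} {g : ℕ} {c : ℕ → V} (M : MinOdd G g c)
    (h5 : 5 ≤ g) (a b d : V) (h1 : G.Adj a b) (h2 : G.Adj b d) (h3 : G.Adj d a) : False :=
  M.min 3 (by decide) (by omega) a (((HW.of_adj h1).trans (HW.of_adj h2)).trans (HW.of_adj h3))

variable [Fintype V] [DecidableEq V]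

/-- total count of ordered adjacent pairs -/
lemma MinOdd.dd_le {G : SimpleGraph V} {g : ℕ} {c : ℕ → V} (M : MinOdd G g c)
    (h5 : 5 ≤ g) : 2 * dd G univ univ ≤ 4 * Fintype.card V + 4 * (Fintype.card V - g)
      + (Fintype.card V - g) ^ 2 ∧ g ≤ Fintype.card V := by
  set C := cyc g c with hC
  have hCc : #C = g := M.card_cyc
  have hgN : g ≤ Fintype.card V := by rw [← hCc]; exact Finset.card_le_univ _
  have hO : #(univ \ C) = Fintype.card V - g := by
    rw [Finset.card_sdiff_of_subset (Finset.subset_univ _), hCc, Finset.card_univ]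
  have h1 : dd G univ univ = dd G univ C + dd G univ (univ \ C) :=
    dd_split_right G univ (Finset.subset_univ _)
  have h2 : dd G univ (univ \ C) = dd G C (univ \ C) + dd G (univ \ C) (univ \ C) :=
    dd_split_left G _ (Finset.subset_univ _)
  have h3 : ∀ S : Finset V, dd G S C ≤ #S * 2 := by
    intro S
    unfold dd
    rw [← smul_eq_mul]
    exact Finset.sum_le_card_nsmul _ _ _ fun u _ => M.dg_le h5 u
  have h4 := h3 univ
  have h5' := h3 (univ \ C)
  rw [dd_comm G] at h5'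
  have h6 := mantel G (M.triFree h5) (univ \ C)
  rw [Finset.card_univ] at h4
  rw [hO] at h5' h6
  refine ⟨?_, hgN⟩
  omega

/-- Edge bound: on `2h+1` vertices, no odd closed walk of length `≤ 2m+1`, not bipartite. -/
lemma edge_bound {G : SimpleGraph V} {h m : ℕ} (hV : Fintype.card V = 2 * h + 1) (hm : 1 ≤ m)
    (hno : NoOdd G (2 * m + 1)) (hodd : ∃ n v, Odd n ∧ HW G n v v) :
    m < h ∧ dd G univ univ ≤ 2 * ((h - m) ^ 2 + 2 * h) := by
  obtain ⟨n, v, hn, hw⟩ := hodd
  obtain ⟨g, v', p, -, hp, M⟩ := exists_minOdd hn hw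
  have hg : 2 * m + 1 < g := hno v' g M.odd ⟨p, hp⟩
  obtain ⟨k, hk⟩ := M.odd
  obtain ⟨h1, h2⟩ := M.dd_le (by omega)
  rw [hV] at h1 h2
  have hkm : m + 1 ≤ k := by omega
  have hkh : k ≤ h := by omega
  refine ⟨by omega, ?_⟩
  obtain ⟨a, rfl⟩ := Nat.exists_eq_add_of_le hkh
  obtain ⟨b, rfl⟩ := Nat.exists_eq_add_of_le hkm
  have e1 : 2 * (m + 1 + b + a) + 1 - g = 2 * a := by omega
  have e2 : m + 1 + b + a - m = 1 + b + a := by omega
  rw [e1] at h1
  rw [e2]
  nlinarith [Nat.zero_le (b*a), Nat.zero_le (b*b)]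

end edgebound


section part

/-- the graphs `G i` partition the edges of the complete graph -/
def Part {V : Type*} {t : ℕ} (G : Fin t → SimpleGraph V) : Prop :=
  ∀ u v, u ≠ v → ∃! i, (G i).Adj u v

/-- every partition of the edges of `K_N` into `t` graphs has, for some `i`, an odd closed walk of
length at most `2 m_i + 1` in graph `i` -/
def U {t : ℕ} (m : Fin t → ℕ) (N : ℕ) : Prop :=
  ∀ G : Fin t → SimpleGraph (Fin N), Part G → ∃ i, ¬ NoOdd (G i) (2 * m i + 1)

lemma HW.of_comap {V W : Type*} {G : SimpleGraph W} {e : V → W} {n : ℕ} {u v : V}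
    (h : HW (G.comap e) n u v) : HW G n (e u) (e v) := by
  obtain ⟨p, hp⟩ := h
  exact ⟨p.map (SimpleGraph.Hom.comap e G), (SimpleGraph.Walk.length_map _ _).trans hp⟩

lemma NoOdd.comap {V W : Type*} {G : SimpleGraph W} {ℓ : ℕ} (h : NoOdd G ℓ) (e : V → W) :
    NoOdd (G.comap e) ℓ := fun v n hn hw => h (e v) n hn hw.of_comap

lemma dd_total {N t : ℕ} {G : Fin t → SimpleGraph (Fin N)} (hG : Part G) :
    ∑ i, dd (G i) univ univ = N * (N - 1) := by
  classical
  unfold dd
  rw [Finset.sum_comm]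
  have : ∀ u : Fin N, ∑ i, dg (G i) univ u = N - 1 := by
    intro u
    unfold dg
    simp_rw [Finset.card_filter]
    rw [Finset.sum_comm]
    have h2 : ∀ v : Fin N, ∑ i, (if (G i).Adj u v then 1 else 0) = if v ≠ u then 1 else 0 := by
      intro v
      rw [← Finset.card_filter]
      split_ifs with h
      · obtain ⟨i, hi, hu⟩ := hG u v h.symm
        rw [Finset.card_eq_one]
        refine ⟨i, ?_⟩
        ext j
        simp only [mem_filter, mem_univ, true_and, mem_singleton]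
        exact ⟨fun hj => hu j hj, fun hj => hj ▸ hi⟩
      · push Not at h
        subst h
        simp
    simp_rw [h2]
    rw [← Finset.card_filter, Finset.filter_ne', Finset.card_erase_of_mem (Finset.mem_univ _)]
    simp
  simp_rw [this]
  simp

/-- removing a bipartite colour -/
lemma restrict {h t : ℕ} {G : Fin (t+1) → SimpleGraph (Fin (2 * h + 1))} (hG : Part G)
    (i : Fin (t+1)) (hi : ¬ ∃ n v, Odd n ∧ HW (G i) n v v) :
    ∃ e : Fin (h+1) → Fin (2 * h + 1), Part (fun j => (G (i.succAbove j)).comap e) := by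
  classical
  have hcol : (G i).Colorable 2 := by
    rw [SimpleGraph.two_colorable_iff_forall_loop_even]
    intro u w
    by_contra hne
    rw [Nat.not_even_iff_odd] at hne
    exact hi ⟨w.length, u, hne, w, rfl⟩
  obtain ⟨col⟩ := hcol
  have hpig : ∃ b ∈ (univ : Finset (Fin 2)), h < #{v ∈ (univ : Finset (Fin (2*h+1))) | col v = b} := by
    apply Finset.exists_lt_card_fiber_of_mul_lt_card_of_maps_to
    · intro a _; exact Finset.mem_univ _
    · simp
  obtain ⟨b, -, hb⟩ := hpig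
  obtain ⟨S, hS, hSc⟩ := Finset.exists_subset_card_eq (Nat.succ_le_of_lt hb)
  let e := S.orderEmbOfFin hSc
  have he : ∀ x, e x ∈ S := fun x => Finset.orderEmbOfFin_mem S hSc x
  refine ⟨fun x => e x, ?_⟩
  intro u v huv
  have hne : e u ≠ e v := fun h => huv (e.injective h)
  obtain ⟨k, hk, hku⟩ := hG (e u) (e v) hne
  have hki : k ≠ i := by
    rintro rfl
    have h1 := hS (he u)
    have h2 := hS (he v)
    simp only [mem_filter, mem_univ, true_and] at h1 h2
    exact col.valid hk (h1.trans h2.symm)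
  obtain ⟨j, rfl⟩ := Fin.exists_succAbove_eq hki
  refine ⟨j, hk, ?_⟩
  intro j' hj'
  have := hku (i.succAbove j') hj'
  exact Fin.succAbove_right_injective this

/-- the main induction step -/
lemma step {h t : ℕ} (m : Fin (t+1) → ℕ) (hpos : ∀ i, 1 ≤ m i)
    (hsub : ∀ i : Fin (t+1), U (fun j => m (i.succAbove j)) (h+1))
    (hcount : (∃ i, h ≤ m i) ∨ ∑ i, ((h - m i)^2 + 2*h) < h*(2*h+1)) : U m (2*h+1) := by
  intro G hG
  by_contra hcon
  push Not at hcon
  have hall : ∀ i, ∃ n v, Odd n ∧ HW (G i) n v v := by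
    intro i
    by_contra hi
    obtain ⟨e, he⟩ := restrict hG i hi
    obtain ⟨j, hj⟩ := hsub i _ he
    exact hj ((hcon _).comap e)
  have hb := fun i => edge_bound (h := h) (by simp) (hpos i) (hcon i) (hall i)
  rcases hcount with ⟨i, hi⟩ | hc
  · exact absurd (hb i).1 (by omega)
  · have h1 := dd_total hG
    have h2 : ∑ i, dd (G i) univ univ ≤ ∑ i, 2 * ((h - m i) ^ 2 + 2 * h) :=
      Finset.sum_le_sum fun i _ => (hb i).2
    rw [h1, ← Finset.mul_sum] at h2
    have h3 : (2 * h + 1) * (2 * h + 1 - 1) = 2 * (h * (2*h+1)) := by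
      rw [Nat.add_sub_cancel]; ring
    omega

lemma U_zero (m : Fin 0 → ℕ) : U m 2 := by
  intro G hG
  obtain ⟨i, -⟩ := hG 0 1 (by decide)
  exact i.elim0

lemma U_one (m : Fin 1 → ℕ) (hm : ∀ i, 1 ≤ m i) : U m 3 :=
  step (h := 1) m hm (fun _ => U_zero _) (Or.inl ⟨0, hm 0⟩)

lemma U_two (m : Fin 2 → ℕ) (hm : ∀ i, 1 ≤ m i) (h2 : ∃ i, 2 ≤ m i) : U m 5 :=
  step (h := 2) m hm (fun _ => U_one _ fun _ => hm _) (Or.inl h2)

end part


section special

/-- adjacency (as a Boolean) in the extremal graph on nine vertices: a 7-cycle `0,…,6`, a twin `7`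
of `0`, a twin `8` of `1`, and the edge `7 8`. -/
def BA (a b : Fin 9) : Bool :=
  decide ((a.val, b.val) ∈ [(0,1),(1,2),(2,3),(3,4),(4,5),(5,6),(0,6),(1,7),(6,7),(0,8),(2,8),(7,8),
   (1,0),(2,1),(3,2),(4,3),(5,4),(6,5),(6,0),(7,1),(7,6),(8,0),(8,2),(8,7)])

variable {V : Type*} {G : SimpleGraph V}

lemma MinOdd.rot {g : ℕ} {c : ℕ → V} (M : MinOdd G g c) (s : ℕ) :
    MinOdd G g (fun n => c ((n + s) % g)) := by
  have hg : 0 < g := M.odd.pos
  constructor
  · intro i _
    have hr : (i + s) % g < g := Nat.mod_lt _ hg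
    have h1 := M.adj _ hr
    show G.Adj (c ((i + s) % g)) (c ((i + 1 + s) % g))
    have h2 : (i + 1 + s) % g = ((i + s) % g + 1) % g := by
      rw [show i + 1 + s = (i + s) + 1 by ring, Nat.add_mod (i+s) 1 g, Nat.add_mod ((i+s)%g) 1 g,
        Nat.mod_mod]
    rw [h2]
    rcases Nat.lt_or_ge ((i+s)%g + 1) g with h3 | h3
    · rw [Nat.mod_eq_of_lt h3]; exact h1
    · have h4 : (i+s)%g + 1 = g := by omega
      rw [h4, Nat.mod_self]
      rw [h4, M.closed] at h1
      exact h1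
  · show c ((g + s) % g) = c ((0 + s) % g)
    rw [Nat.add_mod_left, Nat.zero_add]
  · exact M.odd
  · exact M.min

lemma MinOdd.refl' {g : ℕ} {c : ℕ → V} (M : MinOdd G g c) :
    MinOdd G g (fun n => c (g - n)) := by
  constructor
  · intro i hi
    have h1 := M.adj (g - (i+1)) (by omega)
    rw [show g - (i+1) + 1 = g - i by omega] at h1
    exact h1.symm
  · show c (g - g) = c (g - 0)
    rw [Nat.sub_self, Nat.sub_zero, M.closed]
  · exact M.odd
  · exact M.min

/-- labelled structure -/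
structure Lab (G : SimpleGraph V) (c : ℕ → V) (x y : V) : Prop where
  M : MinOdd G 7 c
  hx : ∀ i < 7, c i ≠ x
  hy : ∀ i < 7, c i ≠ y
  hxy : G.Adj x y

lemma Lab.rot {c : ℕ → V} {x y : V} (L : Lab G c x y) (s : ℕ) :
    Lab G (fun n => c ((n + s) % 7)) x y :=
  ⟨L.M.rot s, fun i _ => L.hx _ (Nat.mod_lt _ (by norm_num)),
    fun i _ => L.hy _ (Nat.mod_lt _ (by norm_num)), L.hxy⟩

lemma Lab.refl' {c : ℕ → V} {x y : V} (L : Lab G c x y) :
    Lab G (fun n => c (7 - n)) x y := by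
  refine ⟨L.M.refl', fun i hi => ?_, fun i hi => ?_, L.hxy⟩
  · rcases Nat.eq_zero_or_pos i with rfl | h
    · show c 7 ≠ x
      rw [L.M.closed]; exact L.hx 0 (by norm_num)
    · exact L.hx _ (by omega)
  · rcases Nat.eq_zero_or_pos i with rfl | h
    · show c 7 ≠ y
      rw [L.M.closed]; exact L.hy 0 (by norm_num)
    · exact L.hy _ (by omega)

/-- normal form -/
lemma Lab.normal {c : ℕ → V} {x y : V} (L : Lab G c x y) {p q r s : ℕ} (hpq : p < q) (hq : q < 7)
    (hrs : r < s) (hs : s < 7) (xp : G.Adj x (c p)) (xq : G.Adj x (c q)) (yr : G.Adj y (c r))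
    (ys : G.Adj y (c s)) :
    ∃ c' : ℕ → V, Lab G c' x y ∧ G.Adj x (c' 1) ∧ G.Adj x (c' 6) ∧ G.Adj y (c' 0) ∧
      G.Adj y (c' 2) := by
  -- step 1 : rotate
  have key1 : ∃ c' : ℕ → V, Lab G c' x y ∧ G.Adj x (c' 1) ∧ G.Adj x (c' 6) ∧
      ∃ r s, r < s ∧ s < 7 ∧ G.Adj y (c' r) ∧ G.Adj y (c' s) := by
    have hd := L.M.two_nbrs hpq hq xp xq
    have hex : ∃ t < 7, (1 + t) % 7 = q ∧ (6 + t) % 7 = p ∨ (1 + t) % 7 = p ∧ (6 + t) % 7 = q := by
      interval_cases q <;> interval_cases p <;> first | (exfalso; omega) | decide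
    obtain ⟨t, -, ht⟩ := hex
    refine ⟨_, L.rot t, ?_, ?_, ?_⟩
    · show G.Adj x (c ((1 + t) % 7))
      rcases ht with ⟨h1, -⟩ | ⟨h1, -⟩ <;> rw [h1] <;> assumption
    · show G.Adj x (c ((6 + t) % 7))
      rcases ht with ⟨-, h1⟩ | ⟨-, h1⟩ <;> rw [h1] <;> assumption
    · have hsh : ∀ r < 7, ∃ r' < 7, (r' + t) % 7 = r := by
        intro r hr
        refine ⟨(r + 7 * t - t) % 7, Nat.mod_lt _ (by norm_num), ?_⟩
        omega
      obtain ⟨r', hr', hr1⟩ := hsh r (by omega)
      obtain ⟨s', hs', hs1⟩ := hsh s hs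
      have hne : r' ≠ s' := by
        rintro rfl
        omega
      rcases lt_or_gt_of_ne hne with h | h
      · exact ⟨r', s', h, hs', by show G.Adj y (c ((r' + t) % 7)); rw [hr1]; exact yr,
          by show G.Adj y (c ((s' + t) % 7)); rw [hs1]; exact ys⟩
      · exact ⟨s', r', h, hr', by show G.Adj y (c ((s' + t) % 7)); rw [hs1]; exact ys,
          by show G.Adj y (c ((r' + t) % 7)); rw [hr1]; exact yr⟩
  clear hpq hq hrs hs xp xq yr ys
  obtain ⟨c', L', x1, x6, r, s, hrs, hs, yr, ys⟩ := key1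
  have hd := L'.M.two_nbrs hrs hs yr ys
  have tri := L'.M.triFree (by norm_num)
  have h5 : ∀ v, ¬ HW G 5 v v := fun v => L'.M.min 5 (by decide) (by norm_num) v
  have n1 : ¬ G.Adj y (c' 1) := fun h => tri _ _ _ L'.hxy h x1.symm
  have n6 : ¬ G.Adj y (c' 6) := fun h => tri _ _ _ L'.hxy h x6.symm
  have n3 : ¬ G.Adj y (c' 3) := by
    intro h
    have w := ((((HW.of_adj x1).trans (L'.M.arc1 (show 1 ≤ 3 by norm_num) (by norm_num))).trans
      (HW.of_adj h.symm)).trans (HW.of_adj L'.hxy.symm))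
    exact h5 _ w
  have n4 : ¬ G.Adj y (c' 4) := by
    intro h
    have w := ((((HW.of_adj x6).trans (L'.M.arc1 (show 4 ≤ 6 by norm_num) (by norm_num)).symm).trans
      (HW.of_adj h.symm)).trans (HW.of_adj L'.hxy.symm))
    exact h5 _ w
  have hrs' : (r = 0 ∧ s = 2) ∨ (r = 0 ∧ s = 5) := by
    have hr1 : r ≠ 1 := by rintro rfl; exact n1 yr
    have hr3 : r ≠ 3 := by rintro rfl; exact n3 yr
    have hr4 : r ≠ 4 := by rintro rfl; exact n4 yr
    have hs3 : s ≠ 3 := by rintro rfl; exact n3 ys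
    have hs4 : s ≠ 4 := by rintro rfl; exact n4 ys
    have hs6 : s ≠ 6 := by rintro rfl; exact n6 ys
    omega
  rcases hrs' with ⟨rfl, rfl⟩ | ⟨rfl, rfl⟩
  · exact ⟨c', L', x1, x6, yr, ys⟩
  · refine ⟨_, L'.refl', x6, x1, ?_, ys⟩
    show G.Adj y (c' 7)
    rw [L'.M.closed]; exact yr

end special


section extremal

lemma exists_two_idx {V : Type*} [DecidableEq V] {G : SimpleGraph V} {g : ℕ} {c : ℕ → V} {x : V}
    (h : 2 ≤ dg G (cyc g c) x) : ∃ p q, p < q ∧ q < g ∧ G.Adj x (c p) ∧ G.Adj x (c q) := by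
  classical
  unfold dg at h
  obtain ⟨u, hu, v, hv, huv⟩ := Finset.one_lt_card.mp (show 1 < _ from h)
  simp only [cyc, mem_filter, mem_image, mem_range] at hu hv
  obtain ⟨⟨i, hi, rfl⟩, hiu⟩ := hu
  obtain ⟨⟨j, hj, rfl⟩, hjv⟩ := hv
  have hne : i ≠ j := fun h => huv (by rw [h])
  rcases lt_or_gt_of_ne hne with h | h
  · exact ⟨i, j, h, hj, hiu, hjv⟩
  · exact ⟨j, i, h, hi, hjv, hiu⟩

lemma extremal9 (G : SimpleGraph (Fin 9)) (hno : NoOdd G 5) (hodd : ∃ n v, Odd n ∧ HW G n v v)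
    (h24 : 24 ≤ dd G univ univ) :
    dd G univ univ = 24 ∧ ∃ φ : Fin 9 ≃ Fin 9, ∀ a b, G.Adj (φ a) (φ b) ↔ BA a b = true := by
  classical
  obtain ⟨n, v, hn, hw⟩ := hodd
  obtain ⟨g, v', p, -, hp, M⟩ := exists_minOdd hn hw
  have hg : 5 < g := hno v' g M.odd ⟨p, hp⟩
  generalize p.getVert = c at M
  clear hw
  obtain ⟨k, hk⟩ := M.odd
  obtain ⟨h1, h2⟩ := M.dd_le (by omega)
  rw [Fintype.card_fin] at h1 h2
  have hg7 : g = 7 := by
    have : g = 7 ∨ g = 9 := by omega
    rcases this with h | h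
    · exact h
    · subst h
      norm_num at h1
      omega
  subst hg7
  set C := cyc 7 c with hC
  have hCc : #C = 7 := M.card_cyc
  have hO : #(univ \ C) = 2 := by
    rw [Finset.card_sdiff_of_subset (Finset.subset_univ _), hCc, Finset.card_univ, Fintype.card_fin]
  have e1 : dd G univ univ = dd G univ C + dd G univ (univ \ C) :=
    dd_split_right G univ (Finset.subset_univ _)
  have e2 : dd G univ (univ \ C) = dd G C (univ \ C) + dd G (univ \ C) (univ \ C) :=
    dd_split_left G _ (Finset.subset_univ _)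
  have h3 : ∀ S : Finset (Fin 9), dd G S C ≤ #S * 2 := by
    intro S
    unfold dd
    rw [← smul_eq_mul]
    exact Finset.sum_le_card_nsmul _ _ _ fun u _ => M.dg_le (by norm_num) u
  have h4 := h3 univ
  rw [Finset.card_univ, Fintype.card_fin] at h4
  have h5 := h3 (univ \ C)
  rw [hO] at h5
  have h5' := h5
  rw [dd_comm G] at h5'
  have h6 := mantel G (M.triFree (by norm_num)) (univ \ C)
  rw [hO] at h6
  have f1 : dd G (univ \ C) C = 4 := by rw [dd_comm]; omega
  have f2 : dd G (univ \ C) (univ \ C) = 2 := by omega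
  have f3 : dd G univ univ = 24 := by omega
  obtain ⟨x, y, hxy, hOxy⟩ := Finset.card_eq_two.mp hO
  have hxO : x ∈ univ \ C := by rw [hOxy]; simp
  have hyO : y ∈ univ \ C := by rw [hOxy]; simp
  have hxC : ∀ i < 7, c i ≠ x := by
    intro i hi h
    rw [Finset.mem_sdiff] at hxO
    exact hxO.2 (by rw [hC, cyc, mem_image]; exact ⟨i, Finset.mem_range.mpr hi, h⟩)
  have hyC : ∀ i < 7, c i ≠ y := by
    intro i hi h
    rw [Finset.mem_sdiff] at hyO
    exact hyO.2 (by rw [hC, cyc, mem_image]; exact ⟨i, Finset.mem_range.mpr hi, h⟩)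
  have hadj : G.Adj x y := by
    by_contra hna
    have : dd G (univ \ C) (univ \ C) = 0 := by
      unfold dd
      refine Finset.sum_eq_zero fun u hu => ?_
      unfold dg
      rw [Finset.card_eq_zero, Finset.filter_eq_empty_iff]
      intro w hw huw
      rw [hOxy] at hu hw
      simp only [mem_insert, mem_singleton] at hu hw
      rcases hu with rfl | rfl <;> rcases hw with rfl | rfl
      · exact huw.ne rfl
      · exact hna huw
      · exact hna huw.symm
      · exact huw.ne rfl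
    omega
  have hsum : dg G C x + dg G C y = 4 := by
    have : dd G (univ \ C) C = dg G C x + dg G C y := by
      unfold dd
      rw [hOxy, Finset.sum_pair hxy]
    omega
  have hdx := M.dg_le (by norm_num) x
  have hdy := M.dg_le (by norm_num) y
  rw [← hC] at hdx hdy
  obtain ⟨p, q, hpq, hq, xp, xq⟩ := exists_two_idx (show 2 ≤ dg G C x by omega)
  obtain ⟨r, s, hrs, hs, yr, ys⟩ := exists_two_idx (show 2 ≤ dg G C y by omega)
  obtain ⟨c', L, x1, x6, y0, y2⟩ :=
    (Lab.mk M hxC hyC hadj).normal hpq hq hrs hs xp xq yr ys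
  -- the labelling
  let f : Fin 9 → Fin 9 := fun a => if a.val < 7 then c' a.val else if a.val = 7 then x else y
  have hf : Function.Injective f := by
    intro a b hab
    simp only [f] at hab
    apply Fin.ext
    have ha := a.isLt
    have hb := b.isLt
    split_ifs at hab with q1 q2 q3 q4 q5 q6 q7 q8
    · exact L.M.inj' q1 q2 hab
    · exact absurd hab (L.hx _ q1)
    · exact absurd hab (L.hy _ q1)
    · exact absurd hab.symm (L.hx _ (by assumption))
    · omega
    · exact absurd hab hxy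
    · exact absurd hab.symm (L.hy _ (by assumption))
    · exact absurd hab.symm hxy
    · omega
  let φ : Fin 9 ≃ Fin 9 := Equiv.ofBijective f (Finite.injective_iff_bijective.mp hf)
  refine ⟨f3, φ, ?_⟩
  have hφ : ∀ a, φ a = f a := fun a => rfl
  have hle : ∀ a b, BA a b = true → G.Adj (f a) (f b) := by
    have a0 : G.Adj (c' 0) (c' 1) := L.M.adj 0 (by norm_num)
    have a1 : G.Adj (c' 1) (c' 2) := L.M.adj 1 (by norm_num)
    have a2 : G.Adj (c' 2) (c' 3) := L.M.adj 2 (by norm_num)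
    have a3 : G.Adj (c' 3) (c' 4) := L.M.adj 3 (by norm_num)
    have a4 : G.Adj (c' 4) (c' 5) := L.M.adj 4 (by norm_num)
    have a5 : G.Adj (c' 5) (c' 6) := L.M.adj 5 (by norm_num)
    have a6 : G.Adj (c' 6) (c' 0) := by
      have := L.M.adj 6 (by norm_num)
      rwa [show 6 + 1 = 7 by norm_num, L.M.closed] at this
    intro a b hab
    simp only [BA, List.mem_cons, Prod.mk.injEq, List.not_mem_nil, or_false,
      decide_eq_true_eq] at hab
    simp only [f]
    rcases hab with h | h | h | h | h | h | h | h | h | h | h | h | h | h | h | h | h | h | h | h | h | h | h | h <;>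
      obtain ⟨h1, h2⟩ := h <;> simp only [h1, h2] <;> norm_num
    · exact a0
    · exact a1
    · exact a2
    · exact a3
    · exact a4
    · exact a5
    · exact a6.symm
    · exact x1.symm
    · exact x6.symm
    · exact y0.symm
    · exact y2.symm
    · exact hadj
    · exact a0.symm
    · exact a1.symm
    · exact a2.symm
    · exact a3.symm
    · exact a4.symm
    · exact a5.symm
    · exact a6
    · exact x1
    · exact x6
    · exact y0
    · exact y2
    · exact hadj.symm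
  -- counting
  have hcnt : ∑ a, ∑ b, (if G.Adj (φ a) (φ b) then 1 else 0) = 24 := by
    rw [← f3]
    unfold dd dg
    simp_rw [Finset.card_filter]
    rw [Equiv.sum_comp φ (fun u => ∑ b, (if G.Adj u (φ b) then 1 else 0))]
    refine Finset.sum_congr rfl fun u _ => ?_
    exact Equiv.sum_comp φ (fun w => (if G.Adj u w then 1 else 0))
  have hcntB : ∑ a : Fin 9, ∑ b : Fin 9, (if BA a b = true then 1 else 0) = 24 := by decide +kernel
  intro a b
  refine ⟨fun h => ?_, fun h => hle a b h⟩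
  by_contra hB
  have hlt : ∑ a : Fin 9, ∑ b : Fin 9, (if BA a b = true then 1 else 0) <
      ∑ a, ∑ b, (if G.Adj (φ a) (φ b) then 1 else 0) := by
    have hpt : ∀ a b, (if BA a b = true then 1 else 0) ≤ (if G.Adj (φ a) (φ b) then 1 else 0) := by
      intro a b
      split_ifs with g1 g2
      · exact le_rfl
      · exact absurd (hle a b g1) g2
      · exact Nat.zero_le _
      · exact le_rfl
    refine Finset.sum_lt_sum (fun a _ => Finset.sum_le_sum fun b _ => hpt a b) ⟨a, mem_univ _, ?_⟩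
    refine Finset.sum_lt_sum (fun b _ => hpt a b) ⟨b, mem_univ _, ?_⟩
    rw [if_neg hB, if_pos h]
    norm_num
  rw [hcnt, hcntB] at hlt
  exact lt_irrefl _ hlt

end extremal


section special222

/-- the six vertices of degree three -/
def S6 : List (Fin 9) := [0, 1, 2, 6, 7, 8]

/-- first condition: `a c` is an edge, `a b` and `b c` are not -/
def K1 (a b c : Fin 9) : Bool := !BA a b && BA a c && !BA b c && b != a && b != c

/-- second condition: `d, e, f` are new and distinct, `d e` and `e f` are not edges -/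
def K2 (a b c d e f : Fin 9) : Bool :=
  !BA d e && !BA e f && d != a && d != b && d != c && e != a && e != b && e != c && e != d &&
  f != a && f != b && f != c && f != d && f != e

lemma fin_check0 : (S6.all fun a => S6.all fun b => S6.all fun c => !K1 a b c ||
    S6.all fun d => S6.all fun e => S6.all fun f => !K2 a b c d e f) = true := by
  decide +kernel

lemma fin_check (a b c : Fin 9) (ha : a ∈ S6) (hb : b ∈ S6) (hc : c ∈ S6) (h1 : K1 a b c = true)
    (d e f : Fin 9) (hd : d ∈ S6) (he : e ∈ S6) (hf : f ∈ S6) : K2 a b c d e f = false := by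
  have h := fin_check0
  rw [List.all_eq_true] at h
  have h := h a ha
  rw [List.all_eq_true] at h
  have h := h b hb
  rw [List.all_eq_true] at h
  have h := h c hc
  rw [h1, Bool.not_true, Bool.false_or, List.all_eq_true] at h
  have h := h d hd
  rw [List.all_eq_true] at h
  have h := h e he
  rw [List.all_eq_true] at h
  have h := h f hf
  rw [Bool.not_eq_true'] at h
  exact h

lemma BA_deg : ∀ a : Fin 9, #{b | BA a b = true} = if a = 3 ∨ a = 4 ∨ a = 5 then 2 else 3 := by
  decide +kernel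

lemma mem_S6 : ∀ a : Fin 9, ¬ (a = 3 ∨ a = 4 ∨ a = 5) → a ∈ S6 := by decide +kernel

lemma special_222 (G : Fin 3 → SimpleGraph (Fin 9)) (hG : Part G)
    (hno : ∀ i, NoOdd (G i) 5) (hodd : ∀ i, ∃ n v, Odd n ∧ HW (G i) n v v) : False := by
  classical
  have hle : ∀ i, dd (G i) univ univ ≤ 24 := fun i =>
    (edge_bound (h := 4) (m := 2) (by simp) (by norm_num) (hno i) (hodd i)).2
  have htot := dd_total hG
  rw [Fin.sum_univ_three] at htot
  have h24 : ∀ i, 24 ≤ dd (G i) univ univ := by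
    have h0 := hle 0
    have h1 := hle 1
    have h2 := hle 2
    intro i
    fin_cases i <;> simp <;> omega
  choose hd φ hφ using fun i => extremal9 (G i) (hno i) (hodd i) (h24 i)
  -- degrees
  have hdeg : ∀ i a, dg (G i) univ (φ i a) = if a = 3 ∨ a = 4 ∨ a = 5 then 2 else 3 := by
    intro i a
    rw [← BA_deg a]
    unfold dg
    have : ({v ∈ (univ : Finset (Fin 9)) | (G i).Adj (φ i a) v}) =
        (({b | BA a b = true} : Finset (Fin 9))).map (φ i).toEmbedding := by
      ext v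
      simp only [mem_filter, mem_univ, true_and, mem_map_equiv]
      rw [← hφ i a, Equiv.apply_symm_apply]
    rw [this, Finset.card_map]
  have hsum : ∀ v, ∑ i, dg (G i) univ v = 8 := by
    intro u
    unfold dg
    simp_rw [Finset.card_filter]
    rw [Finset.sum_comm]
    have h2 : ∀ v : Fin 9, ∑ i, (if (G i).Adj u v then 1 else 0) = if v ≠ u then 1 else 0 := by
      intro v
      rw [← Finset.card_filter]
      split_ifs with h
      · obtain ⟨i, hi, hu⟩ := hG u v h.symm
        rw [Finset.card_eq_one]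
        refine ⟨i, ?_⟩
        ext j
        simp only [mem_filter, mem_univ, true_and, mem_singleton]
        exact ⟨fun hj => hu j hj, fun hj => hj ▸ hi⟩
      · push Not at h
        subst h
        simp
    simp_rw [h2]
    rw [← Finset.card_filter, Finset.filter_ne', Finset.card_erase_of_mem (Finset.mem_univ _)]
    simp
  have hle3 : ∀ i v, dg (G i) univ v ≤ 3 := by
    intro i v
    have := hdeg i ((φ i).symm v)
    rw [Equiv.apply_symm_apply] at this
    rw [this]
    split_ifs <;> norm_num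
  -- the sets of degree-two vertices are disjoint
  have hdisj : ∀ i j, i ≠ j → ∀ a : Fin 9, (a = 3 ∨ a = 4 ∨ a = 5) →
      ¬ (((φ i).symm (φ j a)) = 3 ∨ ((φ i).symm (φ j a)) = 4 ∨ ((φ i).symm (φ j a)) = 5) := by
    intro i j hij a ha hb
    have h1 := hdeg j a
    rw [if_pos ha] at h1
    have h2 := hdeg i ((φ i).symm (φ j a))
    rw [if_pos hb, Equiv.apply_symm_apply] at h2
    have h3 := hsum (φ j a)
    have h4 : ∑ l, dg (G l) univ (φ j a) ≤ 7 := by
      obtain ⟨k, hk⟩ : ∃ k : Fin 3, k ≠ i ∧ k ≠ j ∧ (univ : Finset (Fin 3)) = {i, j, k} := by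
        clear h1 h2 h3 hb
        revert i j
        decide
      rw [hk.2.2, Finset.sum_insert (by simp [hij, hk.1.symm]), Finset.sum_insert (by simp [hk.2.1.symm]),
        Finset.sum_singleton]
      have := hle3 k (φ j a)
      omega
    omega
  -- uniqueness of the colour
  have huniq : ∀ i j u v, (G i).Adj u v → (G j).Adj u v → i = j := by
    intro i j u v hi hj
    exact (hG u v hi.ne).unique hi hj
  have hBAt : ∀ i u v, (G i).Adj u v → BA ((φ i).symm u) ((φ i).symm v) = true := by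
    intro i u v h
    rw [← hφ i, Equiv.apply_symm_apply, Equiv.apply_symm_apply]
    exact h
  have hBAf : ∀ i j u v, i ≠ j → (G j).Adj u v → BA ((φ i).symm u) ((φ i).symm v) = false := by
    intro i j u v hij h
    rw [← Bool.not_eq_true, ← hφ i, Equiv.apply_symm_apply, Equiv.apply_symm_apply]
    intro h'
    exact hij (huniq i j u v h' h)
  have hinj : ∀ i u v, u ≠ v → (φ i).symm u ≠ (φ i).symm v := fun i u v h h' =>
    h ((φ i).symm.injective h')
  have contra : ∀ i j k : Fin 3, i ≠ j → i ≠ k → j ≠ k → ¬ (G i).Adj (φ j 3) (φ j 5) := by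
    intro i j k hij hik hjk hadj
    have j34 : (G j).Adj (φ j 3) (φ j 4) := (hφ j 3 4).mpr (by decide)
    have j45 : (G j).Adj (φ j 4) (φ j 5) := (hφ j 4 5).mpr (by decide)
    have k34 : (G k).Adj (φ k 3) (φ k 4) := (hφ k 3 4).mpr (by decide)
    have k45 : (G k).Adj (φ k 4) (φ k 5) := (hφ k 4 5).mpr (by decide)
    have hS : ∀ l, i ≠ l → ∀ a : Fin 9, (a = 3 ∨ a = 4 ∨ a = 5) → (φ i).symm (φ l a) ∈ S6 :=
      fun l hil a ha => mem_S6 _ (hdisj i l hil a ha)
    have hne : ∀ a b : Fin 9, (a = 3 ∨ a = 4 ∨ a = 5) → (b = 3 ∨ b = 4 ∨ b = 5) →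
        φ k a ≠ φ j b := by
      intro a b ha hb h
      have := hdisj k j hjk.symm b hb
      rw [← h, Equiv.symm_apply_apply] at this
      exact this ha
    have hjne : ∀ l (a b : Fin 9), a ≠ b → φ l a ≠ φ l b := fun l a b h h' => h ((φ l).injective h')
    have c1 := hBAf i j _ _ hij j34
    have c2 := hBAf i j _ _ hij j45
    have c3 := hBAt i _ _ hadj
    have c4 := hBAf i k _ _ hik k34
    have c5 := hBAf i k _ _ hik k45
    have hK1 : K1 ((φ i).symm (φ j 3)) ((φ i).symm (φ j 4)) ((φ i).symm (φ j 5)) = true := by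
      simp only [K1, c1, c2, c3, Bool.and_eq_true, bne_iff_ne, ne_eq, Bool.not_false, true_and]
      exact ⟨hinj i _ _ (hjne j _ _ (by decide)), hinj i _ _ (hjne j _ _ (by decide))⟩
    have hK2 := fin_check _ _ _ (hS j hij 3 (by decide)) (hS j hij 4 (by decide))
      (hS j hij 5 (by decide)) hK1 _ _ _ (hS k hik 3 (by decide)) (hS k hik 4 (by decide))
      (hS k hik 5 (by decide))
    rw [← Bool.not_eq_true] at hK2
    apply hK2
    have hn' : ∀ a b : Fin 9, (a = 3 ∨ a = 4 ∨ a = 5) → (b = 3 ∨ b = 4 ∨ b = 5) →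
        (φ i).symm (φ k a) ≠ (φ i).symm (φ j b) := fun a b ha hb => hinj i _ _ (hne a b ha hb)
    have hk' : ∀ a b : Fin 9, a ≠ b → (φ i).symm (φ k a) ≠ (φ i).symm (φ k b) :=
      fun a b h => hinj i _ _ (hjne k a b h)
    simp only [K2, c4, c5, Bool.and_eq_true, bne_iff_ne, ne_eq, Bool.not_false, true_and]
    refine ⟨⟨⟨⟨⟨⟨⟨⟨⟨⟨⟨?_, ?_⟩, ?_⟩, ?_⟩, ?_⟩, ?_⟩, ?_⟩, ?_⟩, ?_⟩, ?_⟩, ?_⟩, ?_⟩ <;>
      first | exact hn' _ _ (by decide) (by decide) | exact hk' _ _ (by decide)
  obtain ⟨i, hi, -⟩ := hG (φ 0 3) (φ 0 5) (fun h => absurd ((φ 0).injective h) (by decide))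
  have hi0 : i ≠ 0 := by
    rintro rfl
    rw [hφ 0] at hi
    revert hi
    decide
  have hi12 : i = 1 ∨ i = 2 := by
    revert hi0
    clear hi
    revert i
    decide
  rcases hi12 with rfl | rfl
  · exact contra 1 0 2 (by decide) (by decide) (by decide) hi
  · exact contra 2 0 1 (by decide) (by decide) (by decide) hi

lemma U_three (m : Fin 3 → ℕ) (hm : ∀ i, 1 ≤ m i) (h01 : m 1 ≤ m 0) (h12 : m 2 ≤ m 1)
    (hT : (4 ≤ m 0 ∧ 2 ≤ m 1) ∨ (3 ≤ m 0 ∧ 3 ≤ m 1) ∨ 2 ≤ m 2) : U m 9 := by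
  have hl2 : 2 ≤ m 1 := by omega
  have hsub : ∀ i : Fin 3, U (fun j => m (i.succAbove j)) 5 := by
    intro i
    refine U_two _ (fun _ => hm _) ?_
    fin_cases i
    · exact ⟨0, hl2⟩
    · exact ⟨0, show 2 ≤ m 0 by omega⟩
    · exact ⟨1, hl2⟩
  by_cases h4 : 4 ≤ m 0
  · exact step (h := 4) m hm hsub (Or.inl ⟨0, h4⟩)
  by_cases h222 : m 0 = 2
  · -- the case (2,2,2)
    have hall : ∀ i, m i = 2 := by
      intro i
      fin_cases i <;> simp <;> omega
    intro G hG
    by_contra hcon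
    push Not at hcon
    have hno : ∀ i, NoOdd (G i) 5 := by
      intro i
      have := hcon i
      rwa [hall i] at this
    refine special_222 G hG hno ?_
    intro i
    by_contra hi
    obtain ⟨e, he⟩ := restrict (h := 4) hG i hi
    obtain ⟨j, hj⟩ := hsub i _ he
    exact hj ((hcon _).comap e)
  · refine step (h := 4) m hm hsub (Or.inr ?_)
    rw [Fin.sum_univ_three]
    have hm2 := hm 2
    have e0 : m 0 = 3 := by omega
    have e1 : m 1 = 2 ∨ m 1 = 3 := by omega
    have e2 : m 2 = 1 ∨ m 2 = 2 ∨ m 2 = 3 := by omega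
    rcases e1 with e1 | e1 <;> rcases e2 with e2 | e2 | e2 <;> rw [e0, e1, e2] <;> omega

end special222


section lower

/-- The graph of colour `i` of an edge-colouring `c` of the complete graph on `Fin n`. -/
def colourGraph {n t : ℕ} (c : Sym2 (Fin n) → Fin t) (i : Fin t) : SimpleGraph (Fin n) where
  Adj u v := u ≠ v ∧ c s(u, v) = i
  symm := ⟨fun u v h => ⟨h.1.symm, by rw [Sym2.eq_swap]; exact h.2⟩⟩
  loopless := ⟨fun _ h => h.1 rfl⟩

/-- Every colouring of the edges of `K_n` with `t` colours has a colour `i` containing an odd cycle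
of length at most `2 m_i + 1`. -/
def Unavoidable {t : ℕ} (m : Fin t → ℕ) (n : ℕ) : Prop :=
  ∀ c : Sym2 (Fin n) → Fin t, ∃ i, HasOddCycleLE (colourGraph c i) (2 * m i + 1)

lemma NoOdd.mono {V : Type*} {G H : SimpleGraph V} (h : G ≤ H) {ℓ : ℕ} (hH : NoOdd H ℓ) :
    NoOdd G ℓ := by
  rintro v n hn ⟨p, hp⟩
  exact hH v n hn ⟨p.mapLe h, by rw [SimpleGraph.Walk.length_mapLe, hp]⟩

lemma NoOdd.anti {V : Type*} {G : SimpleGraph V} {ℓ ℓ' : ℕ} (h : ℓ ≤ ℓ') (hG : NoOdd G ℓ') :
    NoOdd G ℓ := fun v n hn hw => h.trans_lt (hG v n hn hw)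

lemma not_unavoidable_of_cover {n t : ℕ} (m : Fin (t+1) → ℕ) (G : Fin (t+1) → SimpleGraph (Fin n))
    (hcov : ∀ u v, u ≠ v → ∃ i, (G i).Adj u v) (hno : ∀ i, NoOdd (G i) (2 * m i + 1)) :
    ¬ Unavoidable m n := by
  classical
  intro hU
  obtain ⟨i, hi⟩ := hU (fun e => if h : ∃ i, e ∈ (G i).edgeSet then h.choose else 0)
  refine not_hasOddCycleLE_of_noOdd ((hno i).mono ?_) hi
  intro u v huv
  obtain ⟨hne, hc⟩ := huv
  have hex : ∃ i, s(u, v) ∈ (G i).edgeSet := by
    obtain ⟨j, hj⟩ := hcov u v hne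
    exact ⟨j, hj⟩
  beta_reduce at hc
  rw [dif_pos hex] at hc
  have := hex.choose_spec
  rw [hc] at this
  exact this

lemma unavoidable_of_U {t n : ℕ} {m : Fin t → ℕ} (h : U m n) : Unavoidable m n := by
  intro c
  have hpart : Part (colourGraph c) := by
    intro u v huv
    exact ⟨c s(u, v), ⟨huv, rfl⟩, fun j hj => hj.2.symm⟩
  obtain ⟨i, hi⟩ := h _ hpart
  exact ⟨i, exists_cycle_of_not_noOdd hi⟩

lemma Unavoidable.mono {t n n' : ℕ} {m : Fin t → ℕ} (hn : n ≤ n') (h : Unavoidable m n) :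
    Unavoidable m n' := by
  intro c
  obtain ⟨i, hi⟩ := h (fun e => c (e.map (Fin.castLE hn)))
  refine ⟨i, ?_⟩
  by_contra hcon
  have h1 := (noOdd_of_not_hasOddCycleLE hcon).comap (Fin.castLE hn)
  refine not_hasOddCycleLE_of_noOdd (h1.mono ?_) hi
  intro u v huv
  exact ⟨fun h => huv.1 (Fin.castLE_injective hn h), huv.2⟩

/-- permuting the colours -/
lemma unavoidable_perm {t n : ℕ} (m : Fin t → ℕ) (σ : Equiv.Perm (Fin t)) :
    Unavoidable (m ∘ σ) n ↔ Unavoidable m n := by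
  have key : ∀ (m : Fin t → ℕ) (σ : Equiv.Perm (Fin t)), Unavoidable m n → Unavoidable (m ∘ σ) n := by
    intro m σ h c
    obtain ⟨j, hj⟩ := h (fun e => σ (c e))
    refine ⟨σ.symm j, ?_⟩
    have : colourGraph (fun e => σ (c e)) j = colourGraph c (σ.symm j) := by
      ext u v
      show (u ≠ v ∧ σ (c s(u, v)) = j) ↔ (u ≠ v ∧ c s(u, v) = σ.symm j)
      rw [Equiv.eq_symm_apply]
    rw [this] at hj
    simpa using hj
  refine ⟨fun h => ?_, key m σ⟩
  have := key (m ∘ σ) σ.symm h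
  simpa [Function.comp_assoc] using this

/-! #### certificates by bit masks -/

/-- graph on `Fin n` given by adjacency bit masks -/
def maskGraph (n : ℕ) (L : List ℕ) : SimpleGraph (Fin n) where
  Adj u v := u ≠ v ∧ (L.getD u.val 0).testBit v.val = true ∧ (L.getD v.val 0).testBit u.val = true
  symm := ⟨fun _ _ h => ⟨h.1.symm, h.2.2, h.2.1⟩⟩
  loopless := ⟨fun _ h => h.1 rfl⟩

instance (n : ℕ) (L : List ℕ) : DecidableRel (maskGraph n L).Adj := fun u v => by
  unfold maskGraph; infer_instance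

/-- the mask of all neighbours of the set with mask `S` -/
def stepM : List ℕ → ℕ → ℕ
  | [], _ => 0
  | a :: L, S => (if S.testBit 0 then a else 0) ||| stepM L (S / 2)

lemma stepM_spec (L : List ℕ) : ∀ (S u v : ℕ), S.testBit u = true → (L.getD u 0).testBit v = true →
    (stepM L S).testBit v = true := by
  induction L with
  | nil => intro S u v _ h; simp at h
  | cons a L ih =>
    intro S u v hS hv
    rw [stepM, Nat.testBit_or, Bool.or_eq_true]
    cases u with
    | zero =>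
      left
      rw [if_pos hS]
      simpa using hv
    | succ u =>
      right
      refine ih _ u v ?_ (by simpa using hv)
      rwa [Nat.testBit_succ] at hS

/-- check that no closed walk of length `1, 3, …, 2k-1` from the vertex `u` exists -/
def goOdd (L : List ℕ) (u : ℕ) : ℕ → ℕ → Bool
  | 0, _ => true
  | k + 1, S =>
    match stepM L S with
    | 0 => true
    | S1 + 1 => !((S1 + 1).testBit u) && goOdd L u k (stepM L (S1 + 1))

lemma goOdd_spec (n : ℕ) (L : List ℕ) (u : Fin n) : ∀ (k S : ℕ) (w : Fin n), goOdd L u.val k S = true →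
    S.testBit w.val = true → ∀ j < k, ¬ HW (maskGraph n L) (2 * j + 1) w u := by
  intro k
  induction k with
  | zero => intro S w _ _ j hj; omega
  | succ k ih =>
    rintro S w hgo hS j hj ⟨p, hp⟩
    cases p with
    | nil => simp at hp
    | @cons _ x _ hadj q =>
      have hx : (stepM L S).testBit x.val = true := stepM_spec L S w.val x.val hS hadj.2.1
      rw [goOdd] at hgo
      cases hst : stepM L S with
      | zero => rw [hst] at hx; simp at hx
      | succ S1 =>
        rw [hst] at hgo hx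
        simp only [Bool.and_eq_true, Bool.not_eq_true'] at hgo
        cases q with
        | nil => rw [hgo.1] at hx; exact absurd hx (by simp)
        | @cons _ y _ hadj2 q2 =>
          have hy : (stepM L (S1+1)).testBit y.val = true :=
            stepM_spec L _ x.val y.val hx hadj2.2.1
          simp only [SimpleGraph.Walk.length_cons] at hp
          exact ih _ y hgo.2 hy (j - 1) (by omega) ⟨q2, by omega⟩

/-- check all vertices -/
def chkOdd (n : ℕ) (L : List ℕ) (m : ℕ) : Bool :=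
  (List.range n).all fun u => goOdd L u (m + 1) (2 ^ u)

lemma chkOdd_spec {n : ℕ} {L : List ℕ} {m : ℕ} (h : chkOdd n L m = true) :
    NoOdd (maskGraph n L) (2 * m + 1) := by
  intro v k hk hw
  by_contra hlt
  obtain ⟨j, rfl⟩ := hk
  unfold chkOdd at h
  rw [List.all_eq_true] at h
  have := h v.val (List.mem_range.mpr v.isLt)
  exact goOdd_spec n L v (m+1) _ v this (by simp) j (by omega) hw

/-- two-colourings -/
lemma bip_spec {n : ℕ} {G : SimpleGraph (Fin n)} (f : Fin n → Bool)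
    (h : ∀ u v, G.Adj u v → f u ≠ f v) (ℓ : ℕ) : NoOdd G ℓ := by
  have hc : G.Colorable 2 := (SimpleGraph.Coloring.mk f (fun {u v} huv => h u v huv)).colorable
  rw [SimpleGraph.two_colorable_iff_forall_loop_even] at hc
  rintro v k hk ⟨p, hp⟩
  have := hc v p
  rw [hp] at this
  exact absurd hk (Nat.not_odd_iff_even.mpr this)

/-- fewer than `17` vertices are not enough -/
lemma lower16 (m : Fin 4 → ℕ) {n : ℕ} (hn : n ≤ 16) : ¬ Unavoidable m n := by
  intro h
  have h16 := h.mono hn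
  refine not_unavoidable_of_cover m (fun i => (⊤ : SimpleGraph Bool).comap
    (fun v : Fin 16 => v.val.testBit i.val)) ?_ ?_ h16
  · intro u v huv
    have : ∀ u v : Fin 16, u ≠ v → ∃ i : Fin 4, u.val.testBit i.val ≠ v.val.testBit i.val := by
      decide +kernel
    exact this u v huv
  · intro i
    exact bip_spec (fun v : Fin 16 => v.val.testBit i.val) (fun u v huv => huv) _

end lower


section data

/-- adjacency masks of the four colours of a colouring of `K_17`, given as one list of lists -/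
abbrev Cert := Fin 4 → List ℕ

/-- certificate for (7, 4, 2, 1) -/
def c7421 : Cert := ![
  [32832, 16512, 272, 544, 2052, 1032, 129, 66, 4100, 8200, 32800, 16400, 65792, 66048, 2050, 1025, 12288],
  [1154, 2113, 22528, 41984, 20736, 41472, 33794, 18433, 65552, 65568, 2121, 1158, 20, 40, 148, 104, 768],
  [27176, 38164, 65666, 65601, 65666, 65601, 27176, 38164, 18562, 33857, 25218, 37185, 26754, 37953, 38209, 27266, 60],
  [69908, 74280, 42601, 22934, 42601, 22934, 69908, 74280, 42601, 22934, 69908, 74280, 34409, 18838, 74280, 69908, 52419]]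

lemma c7421_cov : ∀ u v : Fin 17, u ≠ v → ∃ i, (maskGraph 17 (c7421 i)).Adj u v := by
  decide +kernel

lemma c7421_0 : NoOdd (maskGraph 17 (c7421 0)) (2 * 7 + 1) :=
  chkOdd_spec (by decide +kernel)

lemma c7421_1 : NoOdd (maskGraph 17 (c7421 1)) (2 * 4 + 1) :=
  chkOdd_spec (by decide +kernel)

lemma c7421_2 : NoOdd (maskGraph 17 (c7421 2)) (2 * 2 + 1) :=
  chkOdd_spec (by decide +kernel)

lemma c7421_3 : NoOdd (maskGraph 17 (c7421 3)) (2 * 1 + 1) :=
  chkOdd_spec (by decide +kernel)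

/-- certificate for (6, 5, 2, 1) -/
def c6521 : Cert := ![
  [65548, 65548, 19, 19, 44, 80, 160, 320, 640, 1280, 2560, 5120, 10240, 20480, 40960, 81920, 32771],
  [3072, 768, 1536, 6144, 28672, 28672, 122880, 114688, 98306, 6, 5, 9, 56, 112, 240, 448, 448],
  [57568, 28720, 57568, 98752, 66306, 1543, 3085, 3085, 6168, 28720, 57568, 98752, 66306, 1543, 1543, 3085, 6168],
  [4882, 36033, 71944, 26148, 36033, 100744, 4882, 12850, 25701, 100553, 69914, 25142, 50373, 100744, 71944, 12850, 26148]]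

lemma c6521_cov : ∀ u v : Fin 17, u ≠ v → ∃ i, (maskGraph 17 (c6521 i)).Adj u v := by
  decide +kernel

lemma c6521_0 : NoOdd (maskGraph 17 (c6521 0)) (2 * 6 + 1) :=
  chkOdd_spec (by decide +kernel)

lemma c6521_1 : NoOdd (maskGraph 17 (c6521 1)) (2 * 5 + 1) :=
  chkOdd_spec (by decide +kernel)

lemma c6521_2 : NoOdd (maskGraph 17 (c6521 2)) (2 * 2 + 1) :=
  chkOdd_spec (by decide +kernel)

lemma c6521_3 : NoOdd (maskGraph 17 (c6521 3)) (2 * 1 + 1) :=
  chkOdd_spec (by decide +kernel)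

/-- certificate for (6, 3, 3, 1) -/
def c6331 : Cert := ![
  [65548, 65548, 19, 19, 44, 80, 160, 320, 640, 1280, 2560, 5120, 10240, 20480, 40960, 81920, 32771],
  [786, 32961, 71688, 24612, 1025, 32904, 770, 546, 1089, 193, 69904, 24580, 17412, 34824, 6152, 8226, 1028],
  [7168, 1792, 1792, 7168, 30720, 30720, 122880, 122880, 98310, 98310, 15, 57, 57, 240, 240, 960, 960],
  [57568, 30768, 57568, 99264, 99266, 67335, 7197, 7197, 30776, 30776, 57568, 99266, 99266, 67335, 67335, 7197, 30776]]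

lemma c6331_cov : ∀ u v : Fin 17, u ≠ v → ∃ i, (maskGraph 17 (c6331 i)).Adj u v := by
  decide +kernel

lemma c6331_0 : NoOdd (maskGraph 17 (c6331 0)) (2 * 6 + 1) :=
  chkOdd_spec (by decide +kernel)

lemma c6331_1 : NoOdd (maskGraph 17 (c6331 1)) (2 * 3 + 1) :=
  chkOdd_spec (by decide +kernel)

lemma c6331_2 : NoOdd (maskGraph 17 (c6331 2)) (2 * 3 + 1) :=
  chkOdd_spec (by decide +kernel)

lemma c6331_3 : NoOdd (maskGraph 17 (c6331 3)) (2 * 1 + 1) :=
  chkOdd_spec (by decide +kernel)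

/-- certificate for (5, 2, 2, 2) -/
def c5222 : Cert := ![
  [17440, 34832, 98304, 81920, 8450, 4609, 8320, 4160, 34832, 17440, 4609, 8450, 1184, 2128, 521, 262, 12],
  [69760, 73792, 16656, 33312, 36996, 24648, 3618, 3345, 69764, 73800, 65728, 65728, 16657, 33314, 36900, 24600, 3843],
  [35094, 17961, 5793, 10578, 17961, 35094, 81928, 98308, 17961, 35094, 35094, 17961, 98308, 81928, 10578, 5793, 12480],
  [8776, 4484, 10314, 5253, 67648, 66688, 37141, 25130, 8258, 4225, 24616, 36884, 10826, 5509, 66688, 67648, 49200]]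

lemma c5222_cov : ∀ u v : Fin 17, u ≠ v → ∃ i, (maskGraph 17 (c5222 i)).Adj u v := by
  decide +kernel

lemma c5222_0 : NoOdd (maskGraph 17 (c5222 0)) (2 * 5 + 1) :=
  chkOdd_spec (by decide +kernel)

lemma c5222_1 : NoOdd (maskGraph 17 (c5222 1)) (2 * 2 + 1) :=
  chkOdd_spec (by decide +kernel)

lemma c5222_2 : NoOdd (maskGraph 17 (c5222 2)) (2 * 2 + 1) :=
  chkOdd_spec (by decide +kernel)

lemma c5222_3 : NoOdd (maskGraph 17 (c5222 3)) (2 * 2 + 1) :=
  chkOdd_spec (by decide +kernel)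

/-- certificate for (3, 3, 2, 2) -/
def c3322 : Cert := ![
  [8832, 4416, 16520, 32836, 74240, 69888, 10, 5, 16418, 32785, 69632, 73728, 17442, 34833, 4356, 8712, 3120],
  [98312, 81924, 594, 417, 18436, 33800, 81924, 98312, 37896, 26628, 8480, 4624, 10496, 5632, 594, 417, 195],
  [5408, 10768, 75776, 70656, 5442, 10881, 10896, 5472, 10897, 5474, 33433, 16742, 33433, 16742, 75776, 70656, 49164],
  [18518, 33961, 38177, 27154, 32937, 16470, 38177, 27154, 65604, 65672, 18502, 33929, 65604, 65672, 33961, 18518, 13056]]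

lemma c3322_cov : ∀ u v : Fin 17, u ≠ v → ∃ i, (maskGraph 17 (c3322 i)).Adj u v := by
  decide +kernel

lemma c3322_0 : NoOdd (maskGraph 17 (c3322 0)) (2 * 3 + 1) :=
  chkOdd_spec (by decide +kernel)

lemma c3322_1 : NoOdd (maskGraph 17 (c3322 1)) (2 * 3 + 1) :=
  chkOdd_spec (by decide +kernel)

lemma c3322_2 : NoOdd (maskGraph 17 (c3322 2)) (2 * 2 + 1) :=
  chkOdd_spec (by decide +kernel)

lemma c3322_3 : NoOdd (maskGraph 17 (c3322 3)) (2 * 2 + 1) :=
  chkOdd_spec (by decide +kernel)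

/-- certificate for (∞, 3, 2, 1) -/
def cx321 : Cert := ![
  [30782, 34753, 34625, 34625, 34625, 34625, 30782, 2, 30782, 30782, 30782, 100161, 34625, 100161, 34625, 30782, 10240],
  [256, 24, 48, 2178, 65670, 69636, 32768, 1560, 65537, 128, 65664, 8200, 16416, 18432, 12288, 65600, 34096],
  [66560, 75776, 20608, 73744, 40, 16400, 640, 108612, 1024, 32832, 257, 20610, 10244, 4234, 2084, 640, 139],
  [33472, 20516, 75786, 20516, 30720, 10378, 66817, 20769, 33472, 66817, 33344, 52, 65690, 52, 65690, 1281, 21060]]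

lemma cx321_cov : ∀ u v : Fin 17, u ≠ v → ∃ i, (maskGraph 17 (cx321 i)).Adj u v := by
  decide +kernel

lemma cx321_1 : NoOdd (maskGraph 17 (cx321 1)) (2 * 3 + 1) :=
  chkOdd_spec (by decide +kernel)

lemma cx321_2 : NoOdd (maskGraph 17 (cx321 2)) (2 * 2 + 1) :=
  chkOdd_spec (by decide +kernel)

lemma cx321_3 : NoOdd (maskGraph 17 (cx321 3)) (2 * 1 + 1) :=
  chkOdd_spec (by decide +kernel)

/-- certificate for (∞, ∞, 1, 1) -/
def cxx11 : Cert := ![
  [10, 5, 10, 5, 160, 80, 160, 80, 2560, 1280, 2560, 1280, 40960, 20480, 40960, 20480, 0],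
  [4, 8, 1, 2, 64, 128, 16, 32, 1024, 2048, 256, 512, 16384, 32768, 4096, 8192, 0],
  [65776, 65776, 65776, 65776, 3855, 3855, 3855, 3855, 61680, 61680, 61680, 61680, 69376, 69376, 69376, 69376, 61455],
  [65280, 65280, 65280, 65280, 126976, 126976, 126976, 126976, 65551, 65551, 65551, 65551, 255, 255, 255, 255, 4080]]

lemma cxx11_cov : ∀ u v : Fin 17, u ≠ v → ∃ i, (maskGraph 17 (cxx11 i)).Adj u v := by
  decide +kernel

lemma cxx11_2 : NoOdd (maskGraph 17 (cxx11 2)) (2 * 1 + 1) :=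
  chkOdd_spec (by decide +kernel)

lemma cxx11_3 : NoOdd (maskGraph 17 (cxx11 3)) (2 * 1 + 1) :=
  chkOdd_spec (by decide +kernel)

lemma cx321_0 (ℓ : ℕ) : NoOdd (maskGraph 17 (cx321 0)) ℓ :=
  bip_spec (fun v => Nat.testBit 30782 v.val) (by decide +kernel) ℓ

lemma cxx11_0 (ℓ : ℕ) : NoOdd (maskGraph 17 (cxx11 0)) ℓ :=
  bip_spec (fun v => Nat.testBit 43690 v.val) (by decide +kernel) ℓ

lemma cxx11_1 (ℓ : ℕ) : NoOdd (maskGraph 17 (cxx11 1)) ℓ :=
  bip_spec (fun v => Nat.testBit 52428 v.val) (by decide +kernel) ℓ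

end data


section main

/-- The parameter tuples `a ≥ b ≥ c ≥ d` for which an explicit colouring of `K_17` is given:
those below one of `(∞,∞,1,1)`, `(∞,3,2,1)`, `(7,4,2,1)`, `(6,5,2,1)`, `(6,3,3,1)`, `(5,2,2,2)`,
`(3,3,2,2)`. -/
def Dominated (a b c d : ℕ) : Prop :=
  (c ≤ 1 ∧ d ≤ 1) ∨
  (b ≤ 3 ∧ c ≤ 2 ∧ d ≤ 1) ∨
  (a ≤ 7 ∧ b ≤ 4 ∧ c ≤ 2 ∧ d ≤ 1) ∨
  (a ≤ 6 ∧ b ≤ 5 ∧ c ≤ 2 ∧ d ≤ 1) ∨
  (a ≤ 6 ∧ b ≤ 3 ∧ c ≤ 3 ∧ d ≤ 1) ∨
  (a ≤ 5 ∧ b ≤ 2 ∧ c ≤ 2 ∧ d ≤ 2) ∨
  (a ≤ 3 ∧ b ≤ 3 ∧ c ≤ 2 ∧ d ≤ 2)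

/-- The parameter tuples (sorted decreasingly) which are left open. -/
def undecided : Finset (ℕ × ℕ × ℕ × ℕ) := {
  (3,3,3,2), (3,3,3,3), (4,3,2,2), (4,3,3,2), (4,3,3,3), (4,4,2,2), (4,4,3,1), (4,4,3,2),
  (4,4,3,3), (4,4,4,1), (4,4,4,2), (4,4,4,3), (5,3,2,2), (5,3,3,2), (5,3,3,3), (5,4,2,2),
  (5,4,3,1), (5,4,3,2), (5,4,3,3), (5,4,4,1), (5,4,4,2), (5,5,2,2), (5,5,3,1), (5,5,3,2),
  (5,5,4,1), (5,5,5,1), (6,2,2,2), (6,3,2,2), (6,3,3,2), (6,3,3,3), (6,4,2,2), (6,4,3,1),
  (6,4,3,2), (6,4,4,1), (6,4,4,2), (6,5,2,2), (6,5,3,1), (6,5,3,2), (6,5,4,1), (6,6,2,1),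
  (6,6,2,2), (6,6,3,1), (6,6,4,1), (7,2,2,2), (7,3,2,2), (7,3,3,1), (7,3,3,2), (7,3,3,3),
  (7,4,2,2), (7,4,3,1), (7,4,3,2), (7,4,4,1), (7,5,2,1), (7,5,2,2), (7,5,3,1), (7,5,4,1),
  (7,6,2,1), (7,6,2,2), (7,6,3,1), (7,7,2,1), (7,7,2,2), (7,7,3,1)}

instance (a b c d : ℕ) : Decidable (Dominated a b c d) := by unfold Dominated; infer_instance

/-- finite check: every sorted tuple with entries at most `7` is undecided, dominated, or covered by
the counting bound. -/
def checkAll : Bool :=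
  (List.range 8).all fun a => (List.range 8).all fun b => (List.range 8).all fun c =>
    (List.range 8).all fun d =>
      decide (¬ (b ≤ a ∧ c ≤ b ∧ d ≤ c ∧ 1 ≤ d)) || decide ((a, b, c, d) ∈ undecided) ||
      decide (Dominated a b c d) || decide ((8 - a)^2 + (8 - b)^2 + (8 - c)^2 + (8 - d)^2 < 72)

lemma checkAll_true : checkAll = true := by decide +kernel

lemma sum_ge_of_not (a b c d : ℕ) (ha : a ≤ 7) (hab : b ≤ a) (hbc : c ≤ b) (hcd : d ≤ c) (hd : 1 ≤ d)
    (hD : ¬ Dominated a b c d) (hU : (a, b, c, d) ∉ undecided) :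
    (8 - a)^2 + (8 - b)^2 + (8 - c)^2 + (8 - d)^2 < 72 := by
  have h := checkAll_true
  unfold checkAll at h
  rw [List.all_eq_true] at h
  have h := h a (List.mem_range.mpr (by omega))
  rw [List.all_eq_true] at h
  have h := h b (List.mem_range.mpr (by omega))
  rw [List.all_eq_true] at h
  have h := h c (List.mem_range.mpr (by omega))
  rw [List.all_eq_true] at h
  have h := h d (List.mem_range.mpr (by omega))
  simp only [Bool.or_eq_true, decide_eq_true_eq] at h
  rcases h with ((h | h) | h) | h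
  · exact absurd ⟨hab, hbc, hcd, hd⟩ h
  · exact absurd h hU
  · exact absurd h hD
  · exact h

lemma U_four (m : Fin 4 → ℕ) (h01 : m 1 ≤ m 0) (h12 : m 2 ≤ m 1) (h23 : m 3 ≤ m 2) (h3 : 1 ≤ m 3)
    (hU : (m 0, m 1, m 2, m 3) ∉ undecided) (hD : ¬ Dominated (m 0) (m 1) (m 2) (m 3)) :
    U m 17 := by
  have hpos : ∀ i, 1 ≤ m i := by
    intro i
    fin_cases i <;> simp <;> omega
  have hD' := hD
  unfold Dominated at hD'
  have hsub : ∀ i : Fin 4, U (fun j => m (i.succAbove j)) 9 := by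
    intro i
    refine U_three _ (fun _ => hpos _) ?_ ?_ ?_
    · fin_cases i
      · exact h12
      · exact h12.trans h01
      · exact h01
      · exact h01
    · fin_cases i
      · exact h23
      · exact h23
      · exact h23.trans h12
      · exact h12
    · fin_cases i
      · show (4 ≤ m 1 ∧ 2 ≤ m 2) ∨ (3 ≤ m 1 ∧ 3 ≤ m 2) ∨ 2 ≤ m 3
        omega
      · show (4 ≤ m 0 ∧ 2 ≤ m 2) ∨ (3 ≤ m 0 ∧ 3 ≤ m 2) ∨ 2 ≤ m 3
        omega
      · show (4 ≤ m 0 ∧ 2 ≤ m 1) ∨ (3 ≤ m 0 ∧ 3 ≤ m 1) ∨ 2 ≤ m 3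
        omega
      · show (4 ≤ m 0 ∧ 2 ≤ m 1) ∨ (3 ≤ m 0 ∧ 3 ≤ m 1) ∨ 2 ≤ m 2
        omega
  refine step (h := 8) m hpos hsub ?_
  by_cases h8 : 8 ≤ m 0
  · exact Or.inl ⟨0, h8⟩
  · right
    have := sum_ge_of_not (m 0) (m 1) (m 2) (m 3) (by omega) h01 h12 h23 h3 hD hU
    rw [Fin.sum_univ_four]
    omega

lemma not_unavoidable_of_cert (c : Cert)
    (hcov : ∀ u v : Fin 17, u ≠ v → ∃ i, (maskGraph 17 (c i)).Adj u v) (m : Fin 4 → ℕ)
    (h0 : NoOdd (maskGraph 17 (c 0)) (2 * m 0 + 1)) (h1 : NoOdd (maskGraph 17 (c 1)) (2 * m 1 + 1))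
    (h2 : NoOdd (maskGraph 17 (c 2)) (2 * m 2 + 1)) (h3 : NoOdd (maskGraph 17 (c 3)) (2 * m 3 + 1)) :
    ¬ Unavoidable m 17 := by
  refine not_unavoidable_of_cover m (fun i => maskGraph 17 (c i)) hcov ?_
  intro i
  fin_cases i
  · exact h0
  · exact h1
  · exact h2
  · exact h3

lemma lower17 (m : Fin 4 → ℕ) (hD : Dominated (m 0) (m 1) (m 2) (m 3)) :
    ¬ Unavoidable m 17 := by
  rcases hD with h | h | h | h | h | h | h
  · exact not_unavoidable_of_cert cxx11 cxx11_cov m (cxx11_0 _) (cxx11_1 _)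
      (cxx11_2.anti (by omega)) (cxx11_3.anti (by omega))
  · exact not_unavoidable_of_cert cx321 cx321_cov m (cx321_0 _) (cx321_1.anti (by omega))
      (cx321_2.anti (by omega)) (cx321_3.anti (by omega))
  · exact not_unavoidable_of_cert c7421 c7421_cov m (c7421_0.anti (by omega))
      (c7421_1.anti (by omega)) (c7421_2.anti (by omega)) (c7421_3.anti (by omega))
  · exact not_unavoidable_of_cert c6521 c6521_cov m (c6521_0.anti (by omega))
      (c6521_1.anti (by omega)) (c6521_2.anti (by omega)) (c6521_3.anti (by omega))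
  · exact not_unavoidable_of_cert c6331 c6331_cov m (c6331_0.anti (by omega))
      (c6331_1.anti (by omega)) (c6331_2.anti (by omega)) (c6331_3.anti (by omega))
  · exact not_unavoidable_of_cert c5222 c5222_cov m (c5222_0.anti (by omega))
      (c5222_1.anti (by omega)) (c5222_2.anti (by omega)) (c5222_3.anti (by omega))
  · exact not_unavoidable_of_cert c3322 c3322_cov m (c3322_0.anti (by omega))
      (c3322_1.anti (by omega)) (c3322_2.anti (by omega)) (c3322_3.anti (by omega))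

/-- **Four colours.**  Let `m` be four positive parameters, listed decreasingly as
`m (σ 0) ≥ m (σ 1) ≥ m (σ 2) ≥ m (σ 3)`, and suppose this sorted tuple is not in the explicit list
`undecided` of `62` tuples.  Then the multicolour Ramsey number of short odd cycles is
`17 = 2 ^ 4 + 1` iff the sorted tuple is not `Dominated`. -/
theorem result (m : Fin 4 → ℕ) (hpos : ∀ i, 1 ≤ m i) (σ : Equiv.Perm (Fin 4))
    (hσ : Antitone (m ∘ σ)) (hU : (m (σ 0), m (σ 1), m (σ 2), m (σ 3)) ∉ undecided) :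
    IsLeast {n | Unavoidable m n} 17 ↔ ¬ Dominated (m (σ 0)) (m (σ 1)) (m (σ 2)) (m (σ 3)) := by
  have h01 : m (σ 1) ≤ m (σ 0) := hσ (show (0 : Fin 4) ≤ 1 by decide)
  have h12 : m (σ 2) ≤ m (σ 1) := hσ (show (1 : Fin 4) ≤ 2 by decide)
  have h23 : m (σ 3) ≤ m (σ 2) := hσ (show (2 : Fin 4) ≤ 3 by decide)
  constructor
  · rintro ⟨h, -⟩ hD
    exact lower17 (m ∘ σ) hD ((unavoidable_perm m σ).mpr h)
  · intro hD
    refine ⟨(unavoidable_perm m σ).mp
      (unavoidable_of_U (U_four (m ∘ σ) h01 h12 h23 (hpos _) hU hD)), ?_⟩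
    intro n hn
    by_contra hlt
    exact lower16 m (by omega) hn

/-- sanity check: the list of undecided tuples has `62` members -/
lemma card_undecided : undecided.card = 62 := by decide +kernel

end main

end Pool.Agent.Results.MP_92a29d_co.FourColours
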